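import Pool.Agent.helper43.BMH.Spec

/-!
# MP_cef0b4_gt, row bmh:IRR: small combinations of log 2 and log 12
-/

set_option autoImplicit false

namespace Pool.Agent.helper43.BMH

theorem IRR_ne (a b : ℕ) (hb : 0 < b) :
    (a : ℝ) * Real.log 2 - (b : ℝ) * Real.log 12 ≠ 0 := by
  intro h
  have h1 : Real.log ((2 : ℝ) ^ a) = Real.log ((12 : ℝ) ^ b) := by
    rw [Real.log_pow, Real.log_pow]
    linarith
  have h2 : (2 : ℝ) ^ a = (12 : ℝ) ^ b := by
    apply Real.log_injOn_pos _ _ h1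
    · exact Set.mem_Ioi.mpr (by positivity)
    · exact Set.mem_Ioi.mpr (by positivity)
  have h3 : (2 : ℕ) ^ a = 12 ^ b := by exact_mod_cast h2
  have h4 : 3 ∣ 12 ^ b := dvd_pow (by norm_num) hb.ne'
  rw [← h3] at h4
  have h5 := (Nat.prime_three).dvd_of_dvd_pow h4
  omega

theorem t_irr : IRR := by
  intro η hη
  have hl2 : 0 < Real.log 2 := Real.log_pos (by norm_num)
  have hl12 : 3 * Real.log 2 < Real.log 12 := by
    have : Real.log ((2 : ℝ) ^ 3) < Real.log 12 := Real.log_lt_log (by norm_num) (by norm_num)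
    rw [Real.log_pow] at this
    exact_mod_cast this
  obtain ⟨n, hn⟩ := exists_nat_gt (Real.log 2 / η)
  have hn0 : 0 < n := by
    have h0 : (0 : ℝ) < n := lt_trans (by positivity) hn
    exact_mod_cast h0
  obtain ⟨k, hk0, -, hk⟩ := Real.exists_nat_abs_mul_sub_round_le (Real.log 12 / Real.log 2) hn0
  set ξ := Real.log 12 / Real.log 2 with hξ
  have hξ3 : 3 < ξ := by
    rw [hξ, lt_div_iff₀ hl2]
    exact hl12
  set m : ℤ := round ((k : ℝ) * ξ) with hm
  have hk1 : (1 : ℝ) ≤ k := by exact_mod_cast hk0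
  have hkξ : 3 < (k : ℝ) * ξ := by nlinarith
  have hle : (1 : ℝ) / (n + 1) ≤ 1 := by
    rw [div_le_one (by positivity)]
    have : (0 : ℝ) ≤ n := by positivity
    linarith
  have hm0 : (0 : ℝ) < m := by
    have := (abs_le.mp hk).2
    linarith
  have hm0' : 0 < m := by exact_mod_cast hm0
  obtain ⟨a, ha⟩ := Int.eq_ofNat_of_zero_le hm0'.le
  have ha0 : 0 < a := by
    have h0 : (0 : ℤ) < (a : ℤ) := by rw [← ha]; exact hm0'
    exact_mod_cast h0
  have haR : (m : ℝ) = (a : ℝ) := by rw [ha]; simp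
  refine ⟨a, k, ha0, hk0, abs_pos.mpr (IRR_ne a k hk0), ?_⟩
  have heq : (a : ℝ) * Real.log 2 - (k : ℝ) * Real.log 12 =
      -(((k : ℝ) * ξ - m) * Real.log 2) := by
    rw [haR, hξ]
    field_simp
    ring
  rw [heq, abs_neg, abs_mul, abs_of_pos hl2]
  calc |(k : ℝ) * ξ - m| * Real.log 2 ≤ 1 / (n + 1) * Real.log 2 :=
        mul_le_mul_of_nonneg_right hk hl2.le
    _ < η := by
        have hn1 : Real.log 2 < n * η := by
          rwa [div_lt_iff₀ hη] at hn
        rw [one_div, inv_mul_lt_iff₀ (by positivity)]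
        nlinarith

end Pool.Agent.helper43.BMH
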